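import Pool.Agent.W279.P4.Blocks

/-!
# Eigenvalues of the Schur power matrix of a 4 x 4 matrix

For every complex positive semidefinite `4 x 4` matrix `A` every Rayleigh quotient of the Schur power
matrix `π(A)_{σ,τ} = ∏_t A (σ t) (τ t)` is at most `per A`. In particular, for every partition of `4`
every eigenvalue of the block of `π(A)` associated with it is at most `per A`: the case `n = 4` of
Drury's question. (Soules' permanent-on-top conjecture for `n = 4`, frozen statement S01687, proved by
the team with exact sums of squares: `Pool/Agent/W258/P4`.)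
-/

set_option autoImplicit false

open scoped ComplexOrder

namespace Pool.Agent.Results.MP_502342_al.BlocksFour

theorem result (A : Matrix (Fin 4) (Fin 4) ℂ) (hA : A.PosSemidef)
    (x : Equiv.Perm (Fin 4) → ℂ) :
    (∑ σ : Equiv.Perm (Fin 4), ∑ τ : Equiv.Perm (Fin 4),
        star (x σ) * (∏ i, A (σ i) (τ i)) * x τ).re
      ≤ A.permanent.re * ∑ σ : Equiv.Perm (Fin 4), ‖x σ‖ ^ 2 :=
  Pool.Agent.W279.P4.rayleigh A hA x

end Pool.Agent.Results.MP_502342_al.BlocksFour
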